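import Pool.Agent.H45.Lib.S8.W223.HZ.Stms

/-!
# Project HZ, part DPB: determinant bound for a parametrised family
-/

set_option autoImplicit false
set_option maxHeartbeats 1000000

namespace Pool.Agent.W19.HZ

open Polynomial Finset Pool.Agent.W223.HZ

theorem half_eq (a : ℕ) : 2 * (((a * (a - 1) / 2 : ℕ) : ℤ)) = (a : ℤ) ^ 2 - a := by
  have h1 : a * (a - 1) / 2 * 2 = a * (a - 1) :=
    Nat.div_mul_cancel (Nat.even_mul_pred_self a).two_dvd
  have h2 : ((a * (a - 1) / 2 : ℕ) : ℤ) * 2 = ((a * (a - 1) : ℕ) : ℤ) := by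
    exact_mod_cast h1
  rcases Nat.eq_zero_or_pos a with rfl | ha
  · simp
  · rw [Nat.cast_mul, Nat.cast_sub ha] at h2
    push_cast at h2 ⊢
    linarith

theorem exp_eq (m s : ℕ) (hs : s ≤ m + m) :
    (m + m - s) * (m + m - s - 1) / 2 + s * (s - 1) / 2 =
      m * (m - 1) + ((m : ℤ) - s).natAbs ^ 2 := by
  have h1 := half_eq (m + m - s)
  have h2 := half_eq s
  have h3 : (((m + m - s : ℕ)) : ℤ) = m + m - s := by
    rw [Nat.cast_sub hs]
    push_cast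
    ring
  have h4 : ((m * (m - 1) : ℕ) : ℤ) = (m : ℤ) ^ 2 - m := by
    rcases Nat.eq_zero_or_pos m with rfl | hm
    · simp
    · rw [Nat.cast_mul, Nat.cast_sub hm]
      push_cast
      ring
  have h5 : ((((m : ℤ) - s).natAbs ^ 2 : ℕ) : ℤ) = ((m : ℤ) - s) ^ 2 := by
    rw [Nat.cast_pow, Int.natAbs_sq]
  rw [h3] at h1
  have h6 : (2 : ℤ) * ((((m + m - s) * (m + m - s - 1) / 2 + s * (s - 1) / 2 : ℕ)) : ℤ) =
      2 * (((m * (m - 1) + ((m : ℤ) - s).natAbs ^ 2 : ℕ)) : ℤ) := by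
    rw [Nat.cast_add, mul_add, h1, h2, Nat.cast_add, h4, h5]
    ring
  have h7 : ((((m + m - s) * (m + m - s - 1) / 2 + s * (s - 1) / 2 : ℕ)) : ℤ) =
      (((m * (m - 1) + ((m : ℤ) - s).natAbs ^ 2 : ℕ)) : ℤ) := by linarith
  exact_mod_cast h7

theorem prod_pow_fin (m : ℕ) (S : ℝ) :
    (∏ j : Fin m, S ^ (j : ℕ)) * (∏ j : Fin m, S ^ (j : ℕ)) = S ^ (m * (m - 1)) := by
  rw [Finset.prod_pow_eq_pow_sum, ← pow_add, ← mul_two, Fin.sum_univ_eq_sum_range (fun i => i) m,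
    Finset.sum_range_id_mul_two]

theorem fact_le (m : ℕ) (hm : 1 ≤ m) :
    ((m + m).factorial : ℝ) * (2 * ((3 * m + 2 : ℕ) : ℝ)) ^ (m + m) * 2 ^ (m + m) ≤
      25600 ^ (m ^ 2) := by
  have h1 : ((m + m).factorial : ℝ) ≤ ((m + m : ℕ) : ℝ) ^ (m + m) := by
    exact_mod_cast Nat.factorial_le_pow (m + m)
  have hm' : (1 : ℝ) ≤ m := by exact_mod_cast hm
  have h2 : (m : ℝ) ≤ 2 ^ m := by exact_mod_cast (Nat.lt_two_pow_self (n := m)).le
  have h3 : ((m + m : ℕ) : ℝ) * (2 * ((3 * m + 2 : ℕ) : ℝ)) * 2 ≤ 40 * (2 ^ m) ^ 2 := by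
    push_cast
    have h5 : (m : ℝ) ^ 2 ≤ (2 ^ m) ^ 2 := pow_le_pow_left₀ (by positivity) h2 2
    nlinarith
  calc ((m + m).factorial : ℝ) * (2 * ((3 * m + 2 : ℕ) : ℝ)) ^ (m + m) * 2 ^ (m + m)
      ≤ ((m + m : ℕ) : ℝ) ^ (m + m) * (2 * ((3 * m + 2 : ℕ) : ℝ)) ^ (m + m) * 2 ^ (m + m) := by
        gcongr
    _ = (((m + m : ℕ) : ℝ) * (2 * ((3 * m + 2 : ℕ) : ℝ)) * 2) ^ (m + m) := by
        rw [mul_pow (((m + m : ℕ) : ℝ) * (2 * ((3 * m + 2 : ℕ) : ℝ))) 2,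
          mul_pow ((m + m : ℕ) : ℝ)]
    _ ≤ (40 * (2 ^ m) ^ 2) ^ (m + m) := pow_le_pow_left₀ (by positivity) h3 _
    _ = 40 ^ (m + m) * 16 ^ (m ^ 2) := by
        rw [mul_pow]
        congr 1
        rw [← pow_mul, ← pow_mul, show (16 : ℝ) = 2 ^ 4 by norm_num, ← pow_mul]
        congr 1
        ring
    _ ≤ 40 ^ (2 * m ^ 2) * 16 ^ (m ^ 2) := by
        refine mul_le_mul_of_nonneg_right (pow_le_pow_right₀ (by norm_num) ?_) (by positivity)
        nlinarith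
    _ = 25600 ^ (m ^ 2) := by
        rw [pow_mul, ← mul_pow]
        norm_num

theorem coeff_bound (C₄ : ℝ) (hC : 1 ≤ C₄) (m : ℕ) (l0 l1 : ℝ) (hl0 : |l0| ≤ C₄)
    (hl1 : |l1| ≤ C₄) (f : ℝ[X]) (hf : ∀ k, |f.coeff k| ≤ C₄ ^ m) (k : ℕ) :
    |((C l0 + C l1 * X) * f).coeff k| ≤ 2 * C₄ ^ (m + 1) := by
  have h0 : (C l0 + C l1 * X) * f = C l0 * f + C l1 * (X * f) := by ring
  rw [h0, coeff_add, coeff_C_mul, coeff_C_mul]
  have h1 : |l0 * f.coeff k| ≤ C₄ ^ (m + 1) := by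
    rw [abs_mul, pow_succ, mul_comm (C₄ ^ m)]
    exact mul_le_mul hl0 (hf k) (abs_nonneg _) (by linarith)
  have h2 : |l1 * (X * f).coeff k| ≤ C₄ ^ (m + 1) := by
    rw [abs_mul, pow_succ, mul_comm (C₄ ^ m)]
    refine mul_le_mul hl1 ?_ (abs_nonneg _) (by linarith)
    cases k with
    | zero =>
      rw [coeff_X_mul_zero, abs_zero]
      positivity
    | succ k =>
      rw [coeff_X_mul]
      exact hf k
  calc |l0 * f.coeff k + l1 * (X * f).coeff k| ≤ |l0 * f.coeff k| + |l1 * (X * f).coeff k| :=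
        abs_add_le _ _
    _ ≤ 2 * C₄ ^ (m + 1) := by linarith

theorem deg_bound (m : ℕ) (l0 l1 : ℝ) (f : ℝ[X]) (hf : f.natDegree ≤ 3 * m) :
    ((C l0 + C l1 * X) * f).natDegree < 3 * m + 2 := by
  have h1 : (C l0 + C l1 * X : ℝ[X]).natDegree ≤ 1 := by
    refine (natDegree_add_le _ _).trans (max_le ?_ ?_)
    · rw [natDegree_C]
      exact Nat.zero_le _
    · exact (natDegree_C_mul_le _ _).trans natDegree_X_le
  have h2 := natDegree_mul_le (p := (C l0 + C l1 * X : ℝ[X])) (q := f)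
  omega

/-- the exponents -/
theorem expo (C₄ : ℝ) (hC : 1 ≤ C₄) (m : ℕ) (hm : 1 ≤ m) (S L V : ℝ) (hS : 0 < S) (hL : 0 < L)
    (hV : 1 ≤ V) (Y : ℝ)
    (hY : ∀ u : ℤ, |u| ≤ m →
      V ^ (3 * u - m) * L ^ (m * (m - 1)) * (L / S) ^ (u.natAbs ^ 2) ≤ Y)
    (s : ℕ) (hs : s ≤ m + m) :
    (C₄ * (1 / V ^ 3)) ^ s * (C₄ * (L / S)) ^ ((m + m - s) * (m + m - s - 1) / 2
      + s * (s - 1) / 2) ≤ C₄ ^ (4 * m ^ 2) * ((V ^ (m + m))⁻¹ * (S ^ (m * (m - 1)))⁻¹ * Y) := by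
  rw [exp_eq m s hs]
  have hV0 : 0 < V := by linarith
  have hC0 : 0 < C₄ := by linarith
  set N := ((m : ℤ) - s).natAbs ^ 2 with hN
  have h1 := hY ((m : ℤ) - s) (by
    rw [abs_le]
    constructor
    · have : (s : ℤ) ≤ m + m := by exact_mod_cast hs
      linarith
    · have : (0 : ℤ) ≤ s := by positivity
      linarith)
  rw [← hN] at h1
  have hNle : N ≤ m ^ 2 := by
    rw [hN]
    exact Nat.pow_le_pow_left (by omega) 2
  have hexp : s + (m * (m - 1) + N) ≤ 4 * m ^ 2 := by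
    have h5 : m * (m - 1) ≤ m ^ 2 := by
      rw [pow_two]
      exact Nat.mul_le_mul_left _ (Nat.sub_le _ _)
    nlinarith
  have hVs : (V ^ 3)⁻¹ ^ s = (V ^ (m + m))⁻¹ * V ^ (3 * ((m : ℤ) - s) - m) := by
    rw [← zpow_natCast V (m + m), ← zpow_neg, ← zpow_add₀ hV0.ne', inv_pow, ← pow_mul,
      ← zpow_natCast, ← zpow_neg]
    congr 1
    push_cast
    ring
  have hLS : (L / S) ^ (m * (m - 1)) = (S ^ (m * (m - 1)))⁻¹ * L ^ (m * (m - 1)) := by
    rw [div_pow, div_eq_mul_inv, mul_comm]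
  have heq : (C₄ * (1 / V ^ 3)) ^ s * (C₄ * (L / S)) ^ (m * (m - 1) + N) =
      C₄ ^ (s + (m * (m - 1) + N)) * ((V ^ (m + m))⁻¹ * (S ^ (m * (m - 1)))⁻¹ *
        (V ^ (3 * ((m : ℤ) - s) - m) * L ^ (m * (m - 1)) * (L / S) ^ N)) := by
    rw [one_div, mul_pow, mul_pow, hVs, pow_add (L / S), hLS, pow_add C₄ s]
    ring
  rw [heq]
  have hpos : 0 < V ^ (3 * ((m : ℤ) - s) - m) * L ^ (m * (m - 1)) * (L / S) ^ N := by positivity
  refine mul_le_mul (pow_le_pow_right₀ hC hexp) ?_ (by positivity) (by positivity)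
  exact mul_le_mul_of_nonneg_left h1 (by positivity)

theorem t (hD : StmtDET) : StmtDPB := by
  intro C₄ hC
  have hC0 : 0 < C₄ := by linarith
  refine ⟨25600 * C₄ ^ 10, ?_, ?_⟩
  · have := one_le_pow₀ hC (n := 10)
    linarith
  intro m S L V hm hS hL hCL hV τ y hP Y hY
  obtain ⟨f, l0, l1, ω, z, ε, hdeg, hcoef, hl0, hl1, hω, hz, hε, hτ, hy⟩ := hP m
  have hV0 : 0 < V := by linarith
  have hYpos : 0 < Y := by
    refine lt_of_lt_of_le ?_ (hY 0 (by simp))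
    positivity
  have hδ : C₄ * (L / S) ≤ 1 := by
    rw [← mul_div_assoc, div_le_one hS]
    exact hCL
  have hωpos : ∀ i, 0 < ω i := by
    intro i
    have h1 := hω i
    by_contra hneg
    push Not at hneg
    have h2 : C₄ ^ m * ω i ≤ 0 := mul_nonpos_of_nonneg_of_nonpos (by positivity) hneg
    linarith
  have h2C : C₄ ^ m ≤ 2 * C₄ ^ (m + 1) := by
    have h3 : C₄ ^ m ≤ C₄ ^ (m + 1) := pow_le_pow_right₀ hC (Nat.le_succ m)
    have h4 : 0 < C₄ ^ (m + 1) := by positivity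
    linarith
  have key := @hD (Fin m ⊕ Fin m) _ _ (3 * m + 2)
    (fun k => Sum.elim (fun j => S ^ (j : ℕ) * (f j).coeff (k : ℕ))
      (fun j => S ^ (j : ℕ) * ((C l0 + C l1 * X) * f j).coeff (k : ℕ)))
    (fun k => Sum.elim (fun _ => 0) (fun j => S ^ (j : ℕ) * (f j).coeff (k : ℕ)))
    (Sum.elim (fun j => 2 * C₄ ^ (m + 1) * S ^ (j : ℕ)) (fun j => 2 * C₄ ^ (m + 1) * S ^ (j : ℕ)))
    (by
      rintro (j | j) <;> simp only [Sum.elim_inl, Sum.elim_inr] <;> positivity)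
    (by
      rintro k (j | j)
      · simp only [Sum.elim_inl]
        rw [abs_mul, abs_of_pos (pow_pos hS _), mul_comm]
        exact mul_le_mul_of_nonneg_right ((hcoef j k).trans h2C) (by positivity)
      · simp only [Sum.elim_inr]
        rw [abs_mul, abs_of_pos (pow_pos hS _), mul_comm]
        exact mul_le_mul_of_nonneg_right (coeff_bound C₄ hC m l0 l1 hl0 hl1 (f j) (hcoef j) k)
          (by positivity))
    (by
      rintro k (j | j)
      · simp only [Sum.elim_inl]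
        rw [abs_zero]
        positivity
      · simp only [Sum.elim_inr]
        rw [abs_mul, abs_of_pos (pow_pos hS _), mul_comm]
        exact mul_le_mul_of_nonneg_right ((hcoef j k).trans h2C) (by positivity))
    z ε (C₄ * (L / S)) (C₄ * (1 / V ^ 3)) hz hδ hε
    (C₄ ^ (4 * m ^ 2) * ((V ^ (m + m))⁻¹ * (S ^ (m * (m - 1)))⁻¹ * Y))
    (by
      rw [Fintype.card_sum, Fintype.card_fin]
      exact fun s hs => expo C₄ hC m hm S L V hS hL hV Y hY s hs)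
  rw [Fintype.card_sum, Fintype.card_fin, Fintype.prod_sum_type] at key
  simp only [Sum.elim_inl, Sum.elim_inr] at key
  rw [Finset.prod_mul_distrib, Finset.prod_const, Finset.card_univ, Fintype.card_fin] at key
  set A : Matrix (Fin m ⊕ Fin m) (Fin m ⊕ Fin m) ℝ := Matrix.of fun i : Fin m ⊕ Fin m =>
    Sum.elim (fun j : Fin m => (τ i : ℝ) ^ (j : ℕ)) (fun j : Fin m => y i * (τ i : ℝ) ^ (j : ℕ))
    with hA
  have hmat : (Matrix.of fun i j : Fin m ⊕ Fin m => ∑ k : Fin (3 * m + 2), z i ^ (k : ℕ) *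
      (Sum.elim (fun j : Fin m => S ^ (j : ℕ) * (f j).coeff (k : ℕ))
      (fun j : Fin m => S ^ (j : ℕ) * ((C l0 + C l1 * X) * f j).coeff (k : ℕ)) j + ε i *
        Sum.elim (fun _ : Fin m => (0 : ℝ))
          (fun j : Fin m => S ^ (j : ℕ) * (f j).coeff (k : ℕ)) j)) =
      Matrix.of fun i j => ω i * A i j := by
    have hev : ∀ (i : Fin m ⊕ Fin m) (j : Fin m),
        (f j).eval (z i) = ∑ k : Fin (3 * m + 2), (f j).coeff (k : ℕ) * z i ^ (k : ℕ) := by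
      intro i j
      rw [eval_eq_sum_range' (lt_of_le_of_lt (hdeg j) (by omega : 3 * m < 3 * m + 2)),
        Finset.sum_range]
    have hev2 : ∀ (i : Fin m ⊕ Fin m) (j : Fin m),
        (l0 + l1 * z i) * (f j).eval (z i) = ∑ k : Fin (3 * m + 2),
          ((C l0 + C l1 * X) * f j).coeff (k : ℕ) * z i ^ (k : ℕ) := by
      intro i j
      have h5 : ((C l0 + C l1 * X) * f j).eval (z i) = (l0 + l1 * z i) * (f j).eval (z i) := by
        simp
      rw [← h5, eval_eq_sum_range' (deg_bound m l0 l1 (f j) (hdeg j)), Finset.sum_range]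
    ext i j
    rcases j with j | j
    · simp only [Matrix.of_apply, Sum.elim_inl, mul_zero, add_zero, hA]
      rw [hτ i j, hev i j, Finset.mul_sum]
      exact Finset.sum_congr rfl fun k _ => by ring
    · simp only [Matrix.of_apply, Sum.elim_inr, hA]
      have h6 : ω i * (y i * (τ i : ℝ) ^ (j : ℕ)) =
          S ^ (j : ℕ) * ((l0 + l1 * z i) * (f j).eval (z i)) +
            ε i * (S ^ (j : ℕ) * (f j).eval (z i)) := by
        calc ω i * (y i * (τ i : ℝ) ^ (j : ℕ)) = y i * (ω i * (τ i : ℝ) ^ (j : ℕ)) := by ring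
          _ = _ := by
            rw [hτ i j, hy i]
            ring
      rw [h6, hev2 i j, hev i j, Finset.mul_sum, Finset.mul_sum, Finset.mul_sum,
        ← Finset.sum_add_distrib]
      exact Finset.sum_congr rfl fun k _ => by ring
  rw [hmat, Matrix.det_mul_column, abs_mul, abs_of_pos (Finset.prod_pos fun i _ => hωpos i)] at key
  have hprod : 1 ≤ C₄ ^ (m * (m + m)) * ∏ i, ω i := by
    have h7 : ∏ i : Fin m ⊕ Fin m, (C₄ ^ m * ω i) = C₄ ^ (m * (m + m)) * ∏ i, ω i := by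
      rw [Finset.prod_mul_distrib, Finset.prod_const, Finset.card_univ, Fintype.card_sum,
        Fintype.card_fin, ← pow_mul]
    rw [← h7]
    calc (1 : ℝ) = ∏ _i : Fin m ⊕ Fin m, (1 : ℝ) := by rw [Finset.prod_const_one]
      _ ≤ ∏ i : Fin m ⊕ Fin m, (C₄ ^ m * ω i) :=
        Finset.prod_le_prod (fun _ _ => zero_le_one) fun i _ => hω i
  have hdet : |A.det| ≤ C₄ ^ (m * (m + m)) * ((∏ i, ω i) * |A.det|) := by
    have h8 := mul_le_mul_of_nonneg_right hprod (abs_nonneg A.det)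
    rw [one_mul, mul_assoc] at h8
    exact h8
  have hSS : (2 * C₄ ^ (m + 1)) ^ m * (∏ j : Fin m, S ^ (j : ℕ)) *
      ((2 * C₄ ^ (m + 1)) ^ m * (∏ j : Fin m, S ^ (j : ℕ))) =
      2 ^ (m + m) * C₄ ^ ((m + 1) * (m + m)) * S ^ (m * (m - 1)) := by
    rw [← prod_pow_fin m S, pow_mul, pow_add 2 m m, pow_add (C₄ ^ (m + 1)) m m, mul_pow]
    ring
  rw [hSS] at key
  have hS' : S ^ (m * (m - 1)) * (S ^ (m * (m - 1)))⁻¹ = 1 :=
    mul_inv_cancel₀ (pow_pos hS _).ne'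
  have hV' : V ^ (m + m) * (V ^ (m + m))⁻¹ = 1 := mul_inv_cancel₀ (pow_pos hV0 _).ne'
  have h2m : 2 * m = m + m := by ring
  rw [h2m]
  have hfin : V ^ (m + m) * (C₄ ^ (m * (m + m)) * (((m + m).factorial : ℝ) *
      (2 * ((3 * m + 2 : ℕ) : ℝ)) ^ (m + m) *
      (2 ^ (m + m) * C₄ ^ ((m + 1) * (m + m)) * S ^ (m * (m - 1))) *
      (C₄ ^ (4 * m ^ 2) * ((V ^ (m + m))⁻¹ * (S ^ (m * (m - 1)))⁻¹ * Y)))) =
      (((m + m).factorial : ℝ) * (2 * ((3 * m + 2 : ℕ) : ℝ)) ^ (m + m) * 2 ^ (m + m)) *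
        C₄ ^ (m * (m + m) + (m + 1) * (m + m) + 4 * m ^ 2) * Y := by
    rw [pow_add C₄ (m * (m + m) + (m + 1) * (m + m)), pow_add C₄ (m * (m + m))]
    calc _ = (V ^ (m + m) * (V ^ (m + m))⁻¹) * (S ^ (m * (m - 1)) * (S ^ (m * (m - 1)))⁻¹) *
        ((((m + m).factorial : ℝ) * (2 * ((3 * m + 2 : ℕ) : ℝ)) ^ (m + m) * 2 ^ (m + m)) *
        (C₄ ^ (m * (m + m)) * C₄ ^ ((m + 1) * (m + m)) * C₄ ^ (4 * m ^ 2)) * Y) := by ring
      _ = _ := by
        rw [hS', hV']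
        ring
  calc V ^ (m + m) * |A.det| ≤ V ^ (m + m) * (C₄ ^ (m * (m + m)) * ((∏ i, ω i) * |A.det|)) :=
        mul_le_mul_of_nonneg_left hdet (by positivity)
    _ ≤ V ^ (m + m) * (C₄ ^ (m * (m + m)) * (((m + m).factorial : ℝ) *
      (2 * ((3 * m + 2 : ℕ) : ℝ)) ^ (m + m) *
      (2 ^ (m + m) * C₄ ^ ((m + 1) * (m + m)) * S ^ (m * (m - 1))) *
      (C₄ ^ (4 * m ^ 2) * ((V ^ (m + m))⁻¹ * (S ^ (m * (m - 1)))⁻¹ * Y)))) := by
        refine mul_le_mul_of_nonneg_left (mul_le_mul_of_nonneg_left key (by positivity))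
          (by positivity)
    _ = (((m + m).factorial : ℝ) * (2 * ((3 * m + 2 : ℕ) : ℝ)) ^ (m + m) * 2 ^ (m + m)) *
        C₄ ^ (m * (m + m) + (m + 1) * (m + m) + 4 * m ^ 2) * Y := hfin
    _ ≤ (25600 ^ (m ^ 2) * C₄ ^ (10 * m ^ 2)) * Y := by
        refine mul_le_mul_of_nonneg_right ?_ hYpos.le
        refine mul_le_mul (fact_le m hm) (pow_le_pow_right₀ hC ?_) (by positivity) (by positivity)
        nlinarith
    _ = (25600 * C₄ ^ 10) ^ (m ^ 2) * Y := by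
        rw [mul_pow, ← pow_mul]

end Pool.Agent.W19.HZ
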